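import Pool.Agent.Lib.MP_28303a_al.NT.ER.Defs

/-! # Correspondences and located free modules -/

set_option autoImplicit false
set_option linter.unusedSectionVars false
set_option linter.unusedVariables false

namespace Pool.Agent.NegK.NT.EX

universe u

open CategoryTheory Limits Opposite
open Pool.Agent.NegK.TW Pool.Agent.NegK.NT.ER

section

variable {Γ : Type u} [Group Γ]

/-- The discrete preorder. -/
def dis (Γ : Type u) [Group Γ] (Z : Type u) [MulAction Γ Z] : Pre Γ Z where
  le x y := x = y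
  refl _ := rfl
  trans h h' := h.trans h'
  smul g _ _ h := congrArg (fun z => g • z) h

variable {B C Z : Type u} [MulAction Γ B] [MulAction Γ C] [MulAction Γ Z]

/-- A correspondence: for every location `b` a set `S b` of elements `z` with locations `ℓ b z`. -/
structure Crs (P : Pre Γ B) (Z : Type u) [MulAction Γ Z] (Q : Pre Γ C) where
  S : B → Z → Prop
  ℓ : B → Z → C
  mono : ∀ {b b' z}, P.le b b' → S b z → S b' z
  smul : ∀ (g : Γ) {b z}, S b z → S (g • b) (g • z)
  ℓ_smul : ∀ (g : Γ) (b : B) (z : Z), ℓ (g • b) (g • z) = g • ℓ b z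
  ℓ_le : ∀ {b b' z}, P.le b b' → S b z → Q.le (ℓ b z) (ℓ b' z)

variable {k : Type u} [Ring k] {P : Pre Γ B} {Q : Pre Γ C} (c : Crs P Z Q)

namespace Crs

/-- The object. -/
abbrev ob (A : Loc k P) : Loc k Q := ⟨Σ i : A.ι, {z : Z // c.S (A.loc i) z},
  fun p => c.ℓ (A.loc p.1) p.2.1⟩

/-- The elements `a g` of the ring. -/
noncomputable def sg (k : Type u) [Ring k] {Γ : Type u} [Group Γ] (g : Γ) :
    k →+ MonoidAlgebra k Γ where
  toFun a := MonoidAlgebra.single g a
  map_zero' := MonoidAlgebra.single_zero _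
  map_add' _ _ := MonoidAlgebra.single_add _ _ _

open Classical in
/-- The part of `x` in the component `z`. -/
noncomputable def tz (A : Loc k P) (z : Z) : A.F →+ (c.ob A).F :=
  Finsupp.liftAddHom fun i => (Finsupp.liftAddHom fun g =>
    if h : c.S (A.loc i) (g⁻¹ • z) then
      (Finsupp.singleAddHom (⟨i, g⁻¹ • z, h⟩ : (c.ob A).ι)).comp (sg k g)
    else 0).comp (Loc.mc k)

theorem tz_pos (A : Loc k P) {z : Z} {i : A.ι} {g : Γ} (h : c.S (A.loc i) (g⁻¹ • z)) (a : k) :
    c.tz A z (Finsupp.single i (MonoidAlgebra.single g a)) =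
      Finsupp.single (⟨i, g⁻¹ • z, h⟩ : (c.ob A).ι) (MonoidAlgebra.single g a) := by
  have h1 : Loc.mc k (MonoidAlgebra.single g a) = Finsupp.single g a := rfl
  rw [tz, Finsupp.liftAddHom_apply_single, AddMonoidHom.comp_apply, h1,
    Finsupp.liftAddHom_apply_single, dif_pos h]
  rfl

theorem tz_neg (A : Loc k P) {z : Z} {i : A.ι} {g : Γ} (h : ¬ c.S (A.loc i) (g⁻¹ • z)) (a : k) :
    c.tz A z (Finsupp.single i (MonoidAlgebra.single g a)) = 0 := by
  have h1 : Loc.mc k (MonoidAlgebra.single g a) = Finsupp.single g a := rfl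
  rw [tz, Finsupp.liftAddHom_apply_single, AddMonoidHom.comp_apply, h1,
    Finsupp.liftAddHom_apply_single, dif_neg h]
  rfl

/-- Induction on elements of free modules. -/
theorem ind {ι : Type u} {p : (ι →₀ MonoidAlgebra k Γ) → Prop} (h0 : p 0)
    (ha : ∀ x y, p x → p y → p (x + y))
    (hs : ∀ i g a, p (Finsupp.single i (MonoidAlgebra.single g a))) : ∀ x, p x := by
  intro x
  induction x using Finsupp.induction_linear with
  | zero => exact h0
  | add x y hx hy => exact ha x y hx hy
  | single i b =>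
    induction b using MonoidAlgebra.induction_linear with
    | zero =>
      rw [Finsupp.single_zero]
      exact h0
    | add a b hx hy =>
      rw [Finsupp.single_add]
      exact ha _ _ hx hy
    | single g q => exact hs i g q

/-- The coefficients. -/
theorem coeff_tz (A : Loc k P) (z : Z) (x : A.F) (q : (c.ob A).ι) (g : Γ) :
    (g • q.2.1 = z → (c.tz A z x q).coeff g = (x q.1).coeff g) ∧
      (g • q.2.1 ≠ z → (c.tz A z x q).coeff g = 0) := by
  classical
  revert x
  refine ind ?_ ?_ ?_
  · rw [map_zero]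
    exact ⟨fun _ => rfl, fun _ => rfl⟩
  · intro x y hx hy
    rw [map_add, Finsupp.add_apply, MonoidAlgebra.coeff_add, Finsupp.add_apply]
    refine ⟨fun h => ?_, fun h => ?_⟩
    · rw [hx.1 h, hy.1 h]
      rfl
    · rw [hx.2 h, hy.2 h, add_zero]
  · intro i g' a
    by_cases hS : c.S (A.loc i) (g'⁻¹ • z)
    · rw [c.tz_pos A hS, Finsupp.single_apply, Finsupp.single_apply]
      refine ⟨fun h => ?_, fun h => ?_⟩
      · by_cases h1 : i = q.1
        · rw [if_pos h1]
          split_ifs with h2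
          · rfl
          · rw [MonoidAlgebra.coeff_single, Finsupp.single_apply, if_neg]
            · rfl
            · rintro rfl
              refine h2 ?_
              obtain ⟨i', z', h'⟩ := q
              dsimp only at h1 h
              subst h1
              subst h
              refine Sigma.ext rfl (heq_of_eq (Subtype.ext ?_))
              exact inv_smul_smul g' z'
        · rw [if_neg h1, if_neg]
          intro h2
          exact h1 (congrArg Sigma.fst h2)
      · split_ifs with h2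
        · rw [MonoidAlgebra.coeff_single, Finsupp.single_apply, if_neg]
          rintro rfl
          refine h ?_
          rw [← h2]
          exact smul_inv_smul g' z
        · rfl
    · rw [c.tz_neg A hS]
      refine ⟨fun h => ?_, fun h => rfl⟩
      rw [Finsupp.single_apply]
      split_ifs with h1
      · rw [MonoidAlgebra.coeff_single, Finsupp.single_apply, if_neg]
        · rfl
        · rintro rfl
          refine hS ?_
          rw [h1, ← h, inv_smul_smul]
          exact q.2.2
      · rfl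

theorem tz_smul (A : Loc k P) (z : Z) (g : Γ) (a : k) (x : A.F) :
    c.tz A z ((MonoidAlgebra.single g a : MonoidAlgebra k Γ) • x) =
      (MonoidAlgebra.single g a : MonoidAlgebra k Γ) • c.tz A (g⁻¹ • z) x := by
  ext q g'
  rw [Finsupp.smul_apply, smul_eq_mul, MonoidAlgebra.coeff_single_mul_apply]
  by_cases h : g' • q.2.1 = z
  · have h1 : (g⁻¹ * g') • q.2.1 = g⁻¹ • z := by rw [mul_smul, h]
    rw [(c.coeff_tz A z _ q g').1 h, (c.coeff_tz A (g⁻¹ • z) x q (g⁻¹ * g')).1 h1,
      Finsupp.smul_apply, smul_eq_mul, MonoidAlgebra.coeff_single_mul_apply]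
  · have h1 : (g⁻¹ * g') • q.2.1 ≠ g⁻¹ • z := by
      rw [mul_smul]
      exact fun h1 => h (smul_left_cancel _ h1)
    rw [(c.coeff_tz A z _ q g').2 h, (c.coeff_tz A (g⁻¹ • z) x q (g⁻¹ * g')).2 h1, mul_zero]

/-- The morphism. -/
noncomputable def mp {A A' : Loc k P} (f : A ⟶ A') : c.ob A ⟶ c.ob A' :=
  Loc.ofB (A := c.ob A) (A' := c.ob A')
    (fun p => c.tz A' p.2.1 (Loc.lin f (Finsupp.single p.1 1))) (by
    intro p q g hg
    by_cases h : g • q.2.1 = p.2.1
    · rw [(c.coeff_tz A' _ _ q g).1 h] at hg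
      have h1 := Loc.spt_lin f p.1 q.1 g hg
      have h2 := c.ℓ_le h1 p.2.2
      have h3 : c.ℓ (g • A'.loc q.1) p.2.1 = g • c.ℓ (A'.loc q.1) q.2.1 := by
        rw [← h, c.ℓ_smul]
      rw [h3] at h2
      exact h2
    · exact absurd ((c.coeff_tz A' _ _ q g).2 h) hg)

theorem lin_mp {A A' : Loc k P} (f : A ⟶ A') (p : (c.ob A).ι) :
    Loc.lin (c.mp f) (Finsupp.single p 1) =
      c.tz A' p.2.1 (Loc.lin f (Finsupp.single p.1 1)) :=
  Loc.lin_ofB (A := c.ob A) (A' := c.ob A') _ _ p

/-- Two additive maps agree on `x` if they agree on its terms. -/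
theorem eq_of_terms {ι Y : Type u} [AddCommGroup Y] (φ ψ : (ι →₀ MonoidAlgebra k Γ) →+ Y)
    (x : ι →₀ MonoidAlgebra k Γ)
    (h : ∀ i g, (x i).coeff g ≠ 0 → φ (Finsupp.single i (MonoidAlgebra.single g ((x i).coeff g))) =
      ψ (Finsupp.single i (MonoidAlgebra.single g ((x i).coeff g)))) : φ x = ψ x := by
  classical
  have h1 : ∀ θ : (ι →₀ MonoidAlgebra k Γ) →+ Y, θ x = ∑ i ∈ x.support,
      ∑ g ∈ (x i).coeff.support,
        θ (Finsupp.single i (MonoidAlgebra.single g ((x i).coeff g))) := by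
    intro θ
    conv_lhs => rw [← Finsupp.sum_single x]
    rw [Finsupp.sum, map_sum]
    refine Finset.sum_congr rfl fun i _ => ?_
    have h2 : x i = ∑ g ∈ (x i).coeff.support, MonoidAlgebra.single g ((x i).coeff g) := by
      ext g
      rw [MonoidAlgebra.coeff_sum, Finset.sum_apply']
      simp only [MonoidAlgebra.coeff_single, Finsupp.single_apply]
      rw [Finset.sum_ite_eq']
      split_ifs with h3
      · rfl
      · exact Finsupp.notMem_support_iff.1 h3
    conv_lhs => rw [h2]
    have h3 : Finsupp.single i (∑ g ∈ (x i).coeff.support,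
        MonoidAlgebra.single g ((x i).coeff g)) = ∑ g ∈ (x i).coeff.support,
        Finsupp.single i (MonoidAlgebra.single g ((x i).coeff g) : MonoidAlgebra k Γ) :=
      map_sum (Finsupp.singleAddHom i) _ _
    rw [h3, map_sum]
  rw [h1 φ, h1 ψ]
  refine Finset.sum_congr rfl fun i _ => Finset.sum_congr rfl fun g hg => ?_
  exact h i g (Finsupp.mem_support_iff.1 hg)

/-- The key of the functoriality. -/
theorem mp_tz {A A' : Loc k P} (f : A ⟶ A') (z : Z) (x : A.F)
    (hx : ∀ i g, (x i).coeff g ≠ 0 → c.S (A.loc i) (g⁻¹ • z)) :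
    Loc.lin (c.mp f) (c.tz A z x) = c.tz A' z (Loc.lin f x) := by
  refine eq_of_terms ((Loc.lin (c.mp f)).toAddMonoidHom.comp (c.tz A z))
    ((c.tz A' z).comp (Loc.lin f).toAddMonoidHom) x fun i g hg => ?_
  show Loc.lin (c.mp f) (c.tz A z (Finsupp.single i (MonoidAlgebra.single g ((x i).coeff g)))) =
    c.tz A' z (Loc.lin f (Finsupp.single i (MonoidAlgebra.single g ((x i).coeff g))))
  rw [c.tz_pos A (hx i g hg)]
  generalize (x i).coeff g = a
  have h1 : ∀ (ι : Type u) (i : ι), Finsupp.single i (MonoidAlgebra.single g a) =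
      (MonoidAlgebra.single g a : MonoidAlgebra k Γ) •
        (Finsupp.single i (1 : MonoidAlgebra k Γ)) := by
    intro ι i
    rw [Finsupp.smul_single, smul_eq_mul, mul_one]
  rw [h1, h1, map_smul (Loc.lin (c.mp f)), map_smul (Loc.lin f), c.lin_mp, c.tz_smul]

theorem good_lin {A A' : Loc k P} (f : A ⟶ A') {z : Z} {i : A.ι} (h : c.S (A.loc i) z) (j : A'.ι)
    (g : Γ) (hg : (Loc.lin f (Finsupp.single i 1) j).coeff g ≠ 0) :
    c.S (A'.loc j) (g⁻¹ • z) := by
  have h1 := c.mono (Loc.spt_lin f i j g hg) h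
  have h2 := c.smul g⁻¹ h1
  rwa [inv_smul_smul] at h2

theorem tz_one (A : Loc k P) (p : (c.ob A).ι) :
    c.tz A p.2.1 (Finsupp.single p.1 1) = Finsupp.single p 1 := by
  obtain ⟨i, z, h⟩ := p
  have h1 : c.S (A.loc i) ((1 : Γ)⁻¹ • z) := by
    rw [inv_one, one_smul]
    exact h
  rw [MonoidAlgebra.one_def, c.tz_pos A h1]
  congr 1
  refine Sigma.ext rfl (heq_of_eq (Subtype.ext ?_))
  show (1 : Γ)⁻¹ • z = z
  rw [inv_one, one_smul]

/-- The functor. -/
noncomputable def F : Loc k P ⥤ Loc k Q where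
  obj A := c.ob A
  map f := c.mp f
  map_id A := Loc.ext_basis (A := c.ob A) (A' := c.ob A) fun p => by
    rw [c.lin_mp, Loc.lin_id, Loc.lin_id, LinearMap.id_apply, LinearMap.id_apply, c.tz_one]
  map_comp {A A' A''} f g := Loc.ext_basis (A := c.ob A) (A' := c.ob A'') fun p => by
    rw [c.lin_mp, Loc.lin_comp, Loc.lin_comp, LinearMap.comp_apply, LinearMap.comp_apply,
      c.lin_mp, c.mp_tz g _ _ (c.good_lin f p.2.2)]

instance : (c.F (k := k)).Additive where
  map_add {A A'} {f g} := Loc.ext_basis (A := c.ob A) (A' := c.ob A') fun p => by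
    change Loc.lin (c.mp (f + g)) _ = Loc.lin (c.mp f + c.mp g) _
    rw [Loc.lin_add, LinearMap.add_apply, c.lin_mp, c.lin_mp, c.lin_mp, Loc.lin_add,
      LinearMap.add_apply, map_add]

end Crs

end

end Pool.Agent.NegK.NT.EX
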