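import Pool.Agent.Lib.MP_28303a_al.NT.EX.Crs
import Pool.Agent.Lib.MP_28303a_al.NT.EX91.Frs
import Pool.Agent.Lib.MP_28303a_al.NT.H65.Cls

/-! # Exactness: definitions and statements of the modules -/

set_option autoImplicit false
set_option linter.unusedSectionVars false
set_option linter.unusedVariables false

namespace Pool.Agent.NegK.NT.EX

universe u

open CategoryTheory Limits Opposite Pretriangulated
open Pool.Agent.NegK.TW Pool.Agent.NegK.TT Pool.Agent.NegK.NT.ER Pool.Agent.NegK.NT.EX91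

/-! ### Boxes with a vertex or an edge in the direction `j` -/

section

variable {Γ : Type u} [Group Γ]

/-- Equivariant maps of discrete preorders. -/
def wm {Z Z' : Type u} [MulAction Γ Z] [MulAction Γ Z'] (w : Z → Z')
    (hw : ∀ (g : Γ) (z : Z), w (g • z) = g • w z) : Loc.Mono (dis Γ Z) (dis Γ Z') where
  φ := w
  smul := hw
  le h := congrArg w h

/-- The boxes with an element of `Z` in the direction `j`. -/
def zP (T : Sys Γ) (j : Fin T.m) (Z : Type u) [MulAction Γ Z] : Pre Γ (Z × T.Box) where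
  le p q := p.1 = q.1 ∧ (T.P (Finset.univ.erase j)).le p.2 q.2
  refl p := ⟨rfl, (T.P _).refl _⟩
  trans h h' := ⟨h.1.trans h'.1, (T.P _).trans h.2 h'.2⟩
  smul g _ _ h := ⟨congrArg (fun z => g • z) h.1, (T.P _).smul g h.2⟩

variable {T : Sys Γ} {j : Fin T.m} {Z Z' : Type u} [MulAction Γ Z] [MulAction Γ Z']

/-- The box of a pair. -/
noncomputable def zm (l : Z → T.B j) (hl : ∀ (g : Γ) (z : Z), l (g • z) = g • l z) :
    Loc.Mono (zP T j Z) (T.P Finset.univ) where
  φ p := T.up j p.2 (l p.1)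
  smul g p := by
    funext i
    show Function.update (g • p.2) j (l (g • p.1)) i = g • Function.update p.2 j (l p.1) i
    by_cases hi : i = j
    · subst hi
      rw [Function.update_self, Function.update_self, hl]
    · rw [Function.update_of_ne hi, Function.update_of_ne hi]
      rfl
  le := fun {p q} h i _ => by
    show Function.update p.2 j (l p.1) i ≤ Function.update q.2 j (l q.1) i
    by_cases hi : i = j
    · subst hi
      rw [Function.update_self, Function.update_self, h.1]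
    · rw [Function.update_of_ne hi, Function.update_of_ne hi]
      exact h.2 i (Finset.mem_erase.2 ⟨hi, Finset.mem_univ i⟩)

/-- The discrete fibration of an equivariant map. -/
def zq (w : Z → Z') (hw : ∀ (g : Γ) (z : Z), w (g • z) = g • w z) :
    Dfib (zP T j Z) (zP T j Z') where
  φ p := (w p.1, p.2)
  smul g p := Prod.ext (hw g p.1) rfl
  le h := ⟨congrArg w h.1, h.2⟩
  lf p q := (q.1, p.2)
  lf_le h := ⟨rfl, h.2⟩
  φ_lf h := Prod.ext h.1.symm rfl
  uniq h := Prod.ext h.1 rfl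

/-- Forgetting the box. -/
def zf (T : Sys Γ) (j : Fin T.m) (Z : Type u) [MulAction Γ Z] :
    Loc.Mono (zP T j Z) (dis Γ Z) where
  φ p := p.1
  smul _ _ := rfl
  le h := h.1

/-- The elements `z` with `l z ≤ U j`, with the box. -/
def cL (l : Z → T.B j) (hl : ∀ (g : Γ) (z : Z), l (g • z) = g • l z) :
    Crs (T.P Finset.univ) Z (zP T j Z) where
  S U z := l z ≤ U j
  ℓ U z := (z, U)
  mono h h' := h'.trans (h j (Finset.mem_univ j))
  smul g _ _ h := by
    rw [hl]
    exact T.mono j g _ _ h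
  ℓ_smul _ _ _ := rfl
  ℓ_le h _ := ⟨rfl, fun i _ => h i (Finset.mem_univ i)⟩

/-- The elements `z` with `l z ≤ U j`. -/
def gL {S : Finset (Fin T.m)} (hj : j ∈ S) (l : Z → T.B j)
    (hl : ∀ (g : Γ) (z : Z), l (g • z) = g • l z) : Crs (T.P S) Z (dis Γ Z) where
  S U z := l z ≤ U j
  ℓ _ z := z
  mono h h' := h'.trans (h j hj)
  smul g _ _ h := by
    rw [hl]
    exact T.mono j g _ _ h
  ℓ_smul _ _ _ := rfl
  ℓ_le _ _ := rfl

/-- The sides of the edges of a tree. -/
structure Sides (D : T.Tr) (j : Fin T.m) (sd : D.E j → D.V j → Prop) : Prop where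
  s : ∀ e, sd e (D.s j e)
  t : ∀ e, ¬ sd e (D.t j e)
  ne : ∀ e e', e' ≠ e → (sd e (D.s j e') ↔ sd e (D.t j e'))

variable {D : T.Tr} [MulAction Γ (D.V j)] [MulAction Γ (D.E j)] (K : Mk D j) {k : Type u} [Ring k]
  {G : Type u} [AddCommGroup G]

/-- The invariant of a complex: the Euler characteristics of the subtrees of the labels. -/
noncomputable def FF (eu : KK k (dis Γ (D.V j)) → G) {S : Finset (Fin T.m)} (hj : j ∈ S)
    (X : KK k (T.P S)) : G :=
  eu ((hk (gL hj (D.vt j) K.vt_smul).F).obj X) -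
    eu ((hk (Loc.push (wm (D.s j) K.s_smul))).obj
      ((hk (gL hj (D.ed j) K.ed_smul).F).obj X))

end

/-! ### Projective modules over the stabilizers -/

section

variable {k : Type u} [Ring k] {Γ : Type u} [Group Γ] {B : Type u} [MulAction Γ B]

theorem mem_of_mdr {H : Subgroup Γ} (a : MonoidAlgebra k H) {g : Γ}
    (hg : (mdr k H.subtype a).coeff g ≠ 0) : g ∈ H := by
  classical
  by_contra hc
  refine hg ?_
  induction a using MonoidAlgebra.induction_linear with
  | zero =>
    rw [map_zero]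
    rfl
  | add x y hx hy =>
    rw [map_add, MonoidAlgebra.coeff_add, Finsupp.add_apply]
    by_cases h1 : (mdr k H.subtype x).coeff g = 0
    · by_cases h2 : (mdr k H.subtype y).coeff g = 0
      · rw [h1, h2, add_zero]
      · exact absurd (hy h2) h2
    · exact absurd (hx h1) h1
  | single h a =>
    have h1 : mdr k H.subtype (MonoidAlgebra.single h a) = MonoidAlgebra.single (h : Γ) a := by
      show MonoidAlgebra.mapDomainRingHom k H.subtype (MonoidAlgebra.single h a) = _
      rw [MonoidAlgebra.mapDomainRingHom_apply, MonoidAlgebra.mapDomain_single]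
      rfl
    rw [h1, MonoidAlgebra.coeff_single, Finsupp.single_apply, if_neg]
    rintro rfl
    exact hc h.2

/-- The endomorphism of a matrix over the ring of a subgroup which fixes `b`. -/
noncomputable def atm (P : Pre Γ B) (H : Subgroup Γ) (b : B) (hH : ∀ g ∈ H, P.le b (g • b)) {n : ℕ}
    (E : Matrix (Fin n) (Fin n) (MonoidAlgebra k H)) : H65.At k P n b ⟶ H65.At k P n b :=
  Loc.ofB (A := H65.At k P n b) (A' := H65.At k P n b)
    (fun i => Finsupp.equivFunOnFinite.symm fun j => mdr k H.subtype (E i.down j.down))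
    (fun i j g hg => hH g (mem_of_mdr _ hg))

theorem atm_apply (P : Pre Γ B) (H : Subgroup Γ) (b : B) (hH : ∀ g ∈ H, P.le b (g • b)) {n : ℕ}
    (E : Matrix (Fin n) (Fin n) (MonoidAlgebra k H)) (i j : ULift.{u} (Fin n)) :
    Loc.lin (atm P H b hH E) (Finsupp.single i 1) j = mdr k H.subtype (E i.down j.down) := by
  unfold atm
  rw [Loc.lin_ofB]
  rfl

theorem atm_comp (P : Pre Γ B) (H : Subgroup Γ) (b : B) (hH : ∀ g ∈ H, P.le b (g • b)) {n : ℕ}
    (E E' : Matrix (Fin n) (Fin n) (MonoidAlgebra k H)) :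
    atm P H b hH E ≫ atm P H b hH E' = atm P H b hH (E * E') := by
  refine Loc.ext_basis fun i => Finsupp.ext fun j => ?_
  rw [Loc.lin_comp, LinearMap.comp_apply, Loc.map_apply, Finsupp.sum_fintype _ _
    (fun _ => zero_mul _), atm_apply, Matrix.mul_apply, map_sum]
  refine (Finset.sum_congr rfl fun l _ => ?_).trans
    (Equiv.sum_comp Equiv.ulift fun l => mdr k H.subtype (E i.down l * E' l j.down))
  rw [atm_apply, atm_apply, map_mul]
  rfl

/-- The object of an idempotent matrix over the ring of a subgroup which fixes `b`. -/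
noncomputable def atH (P : Pre Γ B) (H : Subgroup Γ) (b : B) (hH : ∀ g ∈ H, P.le b (g • b))
    (q : Idem (MonoidAlgebra k H)) : KL k P :=
  ⟨H65.At k P q.n b, atm P H b hH q.e, by rw [atm_comp, q.idem]⟩

/-- The object of an idempotent matrix over the ring of the stabilizer of a point. -/
noncomputable abbrev atx {X : Type u} [MulAction Γ X] (x : X)
    (q : Idem (MonoidAlgebra k (MulAction.stabilizer Γ x))) : KL k (dis Γ X) :=
  atH (dis Γ X) (MulAction.stabilizer Γ x) x
    (fun _ hg => (MulAction.mem_stabilizer_iff.1 hg).symm) q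

/-- Families of homomorphisms on the K-groups of the stabilizers which are compatible with
conjugation. -/
structure Fam (F : RFun.{u}) (k : Type u) [Ring k] (Γ : Type u) [Group Γ] (X : Type u)
    [MulAction Γ X] (G : Type u) [AddCommGroup G] where
  φ : ∀ x : X, F.obj (MonoidAlgebra k (MulAction.stabilizer Γ x)) →+ G
  conj : ∀ (g : Γ) (x y : X) (c : MulAction.stabilizer Γ x →* MulAction.stabilizer Γ y),
    y = g • x → (∀ h, (c h : Γ) = g * h * g⁻¹) → ∀ z, φ y (F.hom (mdr k c) z) = φ x z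

/-- The class function `κ` has the values `Φ`. -/
structure Kp {X : Type u} [MulAction Γ X] {G : Type u} [AddCommGroup G]
    (Φ : Fam K0Fun k Γ X G) (κ : H65.ClF (KL k (dis Γ X)) G) : Prop where
  S : ∀ Y, κ.S Y ↔ H65.EF Y
  val : ∀ (x : X) (q : Idem (MonoidAlgebra k (MulAction.stabilizer Γ x))),
    κ.cl (atx x q) = Φ.φ x (K0.cls q)

/-- `eu` is the Euler characteristic of `κ`. -/
structure Eud {P : Pre Γ B} {G : Type u} [AddCommGroup G] (κ : H65.ClF (KL k P) G)
    (eu : KK k P → G) : Prop where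
  add : AddF eu
  val : ∀ (X : KK k P) (E : CochainComplex (KL k P) ℤ), Per X → FinK E →
    Nonempty ((tk k P).obj X ≅
      (HomotopyCategory.quotient (KL k P) (ComplexShape.up ℤ)).obj E) → eu X = κ.ch E

/-- The complex with one term. -/
noncomputable abbrev sk {P : Pre Γ B} (Y : KL k P) : KKL k P :=
  (HomotopyCategory.quotient (KL k P) (ComplexShape.up ℤ)).obj
    ((HomologicalComplex.single (KL k P) (ComplexShape.up ℤ) 0).obj Y)

/-- The universal property: a family which is compatible with conjugation and with the pairs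
`x`, `y` with `Adj x y` comes from a homomorphism on the K-group of `k[Γ]`. -/
def UP (F : RFun.{u}) (k : Type u) [Ring k] (Γ : Type u) [Group Γ] (X : Type u) [MulAction Γ X]
    (Adj : X → X → Prop) : Prop :=
  ∀ (G : Type u) [AddCommGroup G] (Φ : Fam F k Γ X G),
    (∀ x y, Adj x y → ∀ z : F.obj (MonoidAlgebra k
      (MulAction.stabilizer Γ x ⊓ MulAction.stabilizer Γ y : Subgroup Γ)),
        Φ.φ x (F.hom (mdr k (Subgroup.inclusion inf_le_left)) z) =
          Φ.φ y (F.hom (mdr k (Subgroup.inclusion inf_le_right)) z)) →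
    ∃ Ψ : F.obj (MonoidAlgebra k Γ) →+ G, ∀ x z,
      Ψ (F.hom (mdr k (MulAction.stabilizer Γ x).subtype) z) = Φ.φ x z

/-- The K-group of `k[Γ]` is generated by the stabilizers. -/
def GN (F : RFun.{u}) (k : Type u) [Ring k] (Γ : Type u) [Group Γ] (X : Type u) [MulAction Γ X] :
    Prop :=
  ⨆ x : X, (F.hom (mdr k (MulAction.stabilizer Γ x).subtype)).range = ⊤

end

/-! ### Statements of the modules -/

/-- EVC. Restriction of `ev A` to the boxes with an element of `Z` in the direction `j`. -/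
def EvcStatement : Prop :=
  ∀ (k : Type u) [Ring k] (Γ : Type u) [Group Γ] (T : Sys Γ) (j : Fin T.m) (Z : Type u)
    [MulAction Γ Z] (l : Z → T.B j) (hl : ∀ (g : Γ) (z : Z), l (g • z) = g • l z),
    Nonempty (Loc.ev ⋙ pb k (zm l hl) ≅ (cL l hl).F ⋙ Loc.ev)

/-- NAT. Direct images along discrete fibrations of `ev A`. -/
def NatStatement : Prop :=
  ∀ (k : Type u) [Ring k] (Γ : Type u) [Group Γ] (B C : Type u) [MulAction Γ B] [MulAction Γ C]
    (P : Pre Γ B) (Q : Pre Γ C) (q : Dfib Q P),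
    Nonempty (Loc.ev (k := k) ⋙ yy q ≅ Loc.push q.toMono ⋙ Loc.ev)

/-- SPT. `T_j`-acyclic functors: the values at the edges split, and determine the values at the
vertices. -/
def SptStatement : Prop :=
  ∀ (Γ : Type u) [Group Γ] (T : Sys Γ) (D : T.Tr) (j : Fin T.m) [MulAction Γ (D.V j)]
    [MulAction Γ (D.E j)] (K : Mk D j) (sd : D.E j → D.V j → Prop), Sides D j sd →
    ∀ (k : Type u) [Ring k] (M : Fn k (T.P Finset.univ)), D.Tac M j →
      ∃ Ns Nt : Fn k (zP T j (D.E j)),
        Nonempty ((pb k (zm (D.ed j) K.ed_smul)).obj M ≅ Ns ⊞ Nt) ∧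
        Nonempty ((pb k (zm (D.vt j) K.vt_smul)).obj M ≅
          (yy (zq (D.s j) K.s_smul)).obj Ns ⊞ (yy (zq (D.t j) K.t_smul)).obj Nt)

/-- KAP. Class functions of families. -/
def KapStatement : Prop :=
  ∀ (k : Type u) [Ring k] (Γ : Type u) [Group Γ] (X : Type u) [MulAction Γ X] (G : Type u)
    [AddCommGroup G] (Φ : Fam K0Fun k Γ X G), ∃ κ : H65.ClF (KL k (dis Γ X)) G, Kp Φ κ

/-- DEC. The finite objects over a discrete preorder are sums of objects at one point. -/
def DecStatement : Prop :=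
  ∀ (k : Type u) [Ring k] (Γ : Type u) [Group Γ] (X : Type u) [MulAction Γ X]
    (W : KL k (dis Γ X) → Prop), (∀ Y Y', Nonempty (Y ≅ Y') → W Y → W Y') →
    (∀ x q, W (atx x q)) → (∀ Y Y', W Y → W Y' → W (H65.smK Y Y')) →
    (∀ Y, IsEmpty Y.X.ι → W Y) → ∀ Y, Finite Y.X.ι → W Y

/-- RLE (uses DEC). The two ends of the edges. -/
def RleStatement : Prop :=
  ∀ (k : Type u) [Ring k] (Γ : Type u) [Group Γ] (V E : Type u) [MulAction Γ V] [MulAction Γ E]
    (s t : E → V) (hs : ∀ (g : Γ) e, s (g • e) = g • s e) (ht : ∀ (g : Γ) e, t (g • e) = g • t e)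
    (G : Type u) [AddCommGroup G] (Φ : Fam K0Fun k Γ V G) (κ : H65.ClF (KL k (dis Γ V)) G)
    (eu : KK k (dis Γ V) → G), Kp Φ κ → Eud κ eu →
    (∀ (e : E) (h1 : MulAction.stabilizer Γ e ≤ MulAction.stabilizer Γ (s e))
      (h2 : MulAction.stabilizer Γ e ≤ MulAction.stabilizer Γ (t e))
      (z : K0 (MonoidAlgebra k (MulAction.stabilizer Γ e))),
        Φ.φ (s e) (K0.map (mdr k (Subgroup.inclusion h1)) z) =
          Φ.φ (t e) (K0.map (mdr k (Subgroup.inclusion h2)) z)) →
    ∀ R : KK k (dis Γ E), Per R →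
      eu ((hk (Loc.push (wm s hs))).obj R) = eu ((hk (Loc.push (wm t ht))).obj R)

/-- FAD. The invariant `FF` is additive and compatible with the functors `L`. -/
def FadStatement : Prop :=
  ∀ (Γ : Type u) [Group Γ] (T : Sys Γ) (D : T.Tr) (j : Fin T.m) [MulAction Γ (D.V j)]
    [MulAction Γ (D.E j)] (K : Mk D j) (k : Type u) [Ring k] (G : Type u) [AddCommGroup G]
    (eu : KK k (dis Γ (D.V j)) → G), AddF eu →
    (∀ (S : Finset (Fin T.m)) (hj : j ∈ S), AddF (FF K eu hj)) ∧
    ∀ X : KK k (T.P Finset.univ), Per X →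
      FF K eu (Finset.mem_singleton_self j)
        ((T.L k (Finset.subset_univ {j})).obj X) = FF K eu (Finset.mem_univ j) X

/-- VAN (uses EVC, NAT, SPT, YS, RR). -/
def VanfStatement : Prop :=
  ∀ (Γ : Type u) [Group Γ] (T : Sys Γ) (D : T.Tr) (j : Fin T.m) [MulAction Γ (D.V j)]
    [MulAction Γ (D.E j)] (K : Mk D j) (sd : D.E j → D.V j → Prop), Sides D j sd →
    ∀ (k : Type u) [Ring k] (G : Type u) [AddCommGroup G]
    (eu : KK k (dis Γ (D.V j)) → G), AddF eu →
    (∀ R : KK k (dis Γ (D.E j)), Per R → eu ((hk (Loc.push (wm (D.s j) K.s_smul))).obj R) =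
      eu ((hk (Loc.push (wm (D.t j) K.t_smul))).obj R)) →
    ∀ R : KK k (T.P Finset.univ), Per R → (∀ n : ℤ, n ≠ 0 → IsZero ((hq k _ n).obj R)) →
      D.Tac ((hq k _ 0).obj R) j → FF K eu (Finset.mem_univ j) R = 0

/-- KEY (uses RES, CL, LIFT and `fm_dev`): an additive function which vanishes on the resolutions
of `T_j`-acyclic functors. -/
def KeyStatement : Prop :=
  ∀ (Γ : Type u) [Group Γ] (T : Sys Γ) (D : T.Tr) (j : Fin T.m) [MulAction Γ (D.V j)]
    [MulAction Γ (D.E j)] (K : Mk D j), (∀ U ∈ nv K, InRC (MulAction.stabilizer Γ U)) →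
    ∀ (k : Type u) [Ring k], RegularRing k → ∀ (G : Type u) [AddCommGroup G]
    (F : KK k (T.P {j}) → G), AddF F →
    (∀ R : KK k (T.P Finset.univ), Per R → (∀ n : ℤ, n ≠ 0 → IsZero ((hq k _ n).obj R)) →
      D.Tac ((hq k _ 0).obj R) j → F ((T.L k (Finset.subset_univ {j})).obj R) = 0) →
    ∀ X : KK k (T.P {j}), Per X → IsZero ((T.L k (Finset.empty_subset {j})).obj X) → F X = 0

/-- PSI (uses IND, ROF). The homomorphism of an additive function. -/
def PsiStatement : Prop :=
  ∀ (Γ : Type u) [Group Γ] (T : Sys Γ) (D : T.Tr) (j : Fin T.m) [MulAction Γ (D.V j)]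
    [MulAction Γ (D.E j)] (K : Mk D j), (∀ U ∈ nv K, InRC (MulAction.stabilizer Γ U)) →
    ∀ (k : Type u) [Ring k], RegularRing k → ∀ (G : Type u) [AddCommGroup G]
    (F : KK k (T.P {j}) → G), AddF F →
    (∀ X : KK k (T.P {j}), Per X → IsZero ((T.L k (Finset.empty_subset {j})).obj X) → F X = 0) →
    ∃ Ψ : K0 (MonoidAlgebra k Γ) →+ G, ∀ (H : Subgroup Γ) (U : T.Box)
      (hH : ∀ g ∈ H, (T.P {j}).le U (g • U)) (q : Idem (MonoidAlgebra k H)) (X : KK k (T.P {j})),
      Per X → Nonempty ((tk k _).obj X ≅ sk (atH (T.P {j}) H U hH q)) →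
        Ψ (K0.map (mdr k H.subtype) (K0.cls q)) = F X

/-- VAL. The value of the invariant at a vertex. -/
def ValStatement : Prop :=
  ∀ (Γ : Type u) [Group Γ] (T : Sys Γ) (D : T.Tr) (j : Fin T.m) [MulAction Γ (D.V j)]
    [MulAction Γ (D.E j)] (K : Mk D j) (k : Type u) [Ring k] (G : Type u) [AddCommGroup G]
    (Φ : Fam K0Fun k Γ (D.V j) G) (κ : H65.ClF (KL k (dis Γ (D.V j))) G)
    (eu : KK k (dis Γ (D.V j)) → G), Kp Φ κ → Eud κ eu →
    ∀ (v : D.V j) (U : T.Box), U j = D.vt j v →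
    ∀ (hH : ∀ g ∈ MulAction.stabilizer Γ v, (T.P {j}).le U (g • U))
      (q : Idem (MonoidAlgebra k (MulAction.stabilizer Γ v))) (X : KK k (T.P {j})), Per X →
      Nonempty ((tk k _).obj X ≅ sk (atH (T.P {j}) (MulAction.stabilizer Γ v) U hH q)) →
        FF K eu (Finset.mem_singleton_self j) X = Φ.φ v (K0.cls q)

/-- SYSX. The labels of `SysStatement` with the relation to the tree `j`. -/
def SysxStatement : Prop :=
  ∀ (Γ : Type u) [Group Γ] (Y : Trees Γ) (j : Fin Y.m), (∃ v w : Y.V j, (Y.G j).Adj v w) →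
    ∃ (T : Sys Γ) (hm : T.m = Y.m) (D : T.Tr) (j' : Fin T.m) (aV : MulAction Γ (D.V j'))
      (aE : MulAction Γ (D.E j')) (K : Mk D j') (sd : D.E j' → D.V j' → Prop)
      (f : D.V j' ≃ Y.V j), Sides D j' sd ∧ (∀ (g : Γ) v, f (g • v) = g • f v) ∧
      (∀ e, (Y.G j).Adj (f (D.s j' e)) (f (D.t j' e))) ∧
      (∀ U ∈ nv K, ∃ (v : ∀ i, Y.V i) (w : Y.V j), (Y.G j).Adj (v j) w ∧
        MulAction.stabilizer Γ U ≤ Y.st v ⊓ MulAction.stabilizer Γ w) ∧
      (∀ x : T.B j', ∃ v : Y.V j, MulAction.stabilizer Γ x ≤ MulAction.stabilizer Γ v) ∧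
      ∃ sz : T.B j' → ℕ, (∀ (g : Γ) x, sz (g • x) = sz x) ∧ ∀ x y, x ≤ y → x ≠ y → sz x < sz y

/-- UNI (all of the above). The universal property of `K₀(k[Γ])`. -/
def UnivStatement : Prop :=
  ∀ (Γ : Type u) [Group Γ] (Y : Trees Γ) (j : Fin Y.m),
    (∀ (v : ∀ i, Y.V i) (w : Y.V j), (Y.G j).Adj (v j) w →
      InRC (Y.st v ⊓ MulAction.stabilizer Γ w : Subgroup Γ)) →
    ∀ (k : Type u) [Ring k], RegularRing k → UP K0Fun k Γ (Y.V j) (Y.G j).Adj

/-- BAS. The universal property of the negative K-groups. -/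
def BasStatement : Prop :=
  ∀ (Γ : Type u) [Group Γ] (X : Type u) [MulAction Γ X] (Adj : X → X → Prop),
    (∀ (k : Type u) [Ring k], RegularRing k → GN K0Fun k Γ X ∧ UP K0Fun k Γ X Adj) →
    ∀ (n : ℕ) (k : Type u) [Ring k], RegularRing k →
      GN (KNegFun n) k Γ X ∧ UP (KNegFun n) k Γ X Adj

/-- INN. Inner automorphisms act trivially on the K-groups. -/
def InnStatement : Prop :=
  ∀ (n : ℕ) (A : Type u) [Ring A] (u : Aˣ) (c : A →+* A), (∀ a, c a = u * a * u⁻¹) →
    (KNegFun n).hom c = AddMonoidHom.id _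

open Classical in
/-- DSUM (uses INN). The direct sum if the K-groups of the edges vanish. -/
def DsumStatement : Prop :=
  ∀ (n : ℕ) (k : Type u) [Ring k] (Γ : Type u) [Group Γ] (X : Type u) [MulAction Γ X]
    (Adj : X → X → Prop), GN (KNegFun n) k Γ X → UP (KNegFun n) k Γ X Adj →
    (∀ x y, Adj x y → Subsingleton (KNeg n (MonoidAlgebra k
      (MulAction.stabilizer Γ x ⊓ MulAction.stabilizer Γ y : Subgroup Γ)))) →
    ∀ rep : MulAction.orbitRel.Quotient Γ X → X, (∀ o, Quotient.mk'' (rep o) = o) →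
    Function.Bijective (DirectSum.toAddMonoid fun o : MulAction.orbitRel.Quotient Γ X =>
      (KNegFun n).hom (mdr k (MulAction.stabilizer Γ (rep o)).subtype))

/-- KNE. The negative K-groups of the edges vanish. -/
def KneStatement : Prop :=
  ∀ (Γ : Type u) [Group Γ] (Y : Trees Γ) (j : Fin Y.m),
    (∀ (v : ∀ i, Y.V i) (w : Y.V j), (Y.G j).Adj (v j) w →
      InRC (Y.st v ⊓ MulAction.stabilizer Γ w : Subgroup Γ)) →
    ∀ (n : ℕ) (k : Type u) [Ring k], RegularRing k → ∀ v w : Y.V j, (Y.G j).Adj v w →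
      Subsingleton (KNeg (n + 1) (MonoidAlgebra k
        (MulAction.stabilizer Γ v ⊓ MulAction.stabilizer Γ w : Subgroup Γ)))

open Classical in
/-- ITX (uses UNI, BAS, DSUM, KNE, REL). The negative K-groups of `k[Γ]` are the direct sums of
those of the stabilizers of the vertices of the product of the trees in `I`. -/
def ItxStatement : Prop :=
  ∀ (Γ : Type u) [Group Γ] (Y : Trees Γ) (I : Finset (Fin Y.m)),
    (∀ j ∈ I, ∀ (v : ∀ i, Y.V i) (w : Y.V j), (Y.G j).Adj (v j) w →
      InRC (Y.st v ⊓ MulAction.stabilizer Γ w : Subgroup Γ)) →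
    ∀ (n : ℕ) (k : Type u) [Ring k], RegularRing k →
    ∀ rep : MulAction.orbitRel.Quotient Γ (∀ i : I, Y.V i) → ∀ i : I, Y.V i,
      (∀ o, Quotient.mk'' (rep o) = o) →
      Function.Bijective (DirectSum.toAddMonoid
        fun o : MulAction.orbitRel.Quotient Γ (∀ i : I, Y.V i) =>
          (KNegFun (n + 1)).hom (mdr k (MulAction.stabilizer Γ (rep o)).subtype))

end Pool.Agent.NegK.NT.EX
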